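import Pool.Agent.H31.RZ.Expo

/-!
# MP_6e60ff_nt : zeros of bounded height, and zeros on rational lines of bounded height
-/

namespace Pool.Agent.Results.MP_6e60ff_nt.NoZeroOfSmallHeight

open MvPolynomial Pool.Agent.H31.RZ

/-- the nonzero forms of degree `d` in `n + 1` variables with integer coefficients of absolute
value at most `H` -/
def Forms (n d H : ℕ) : Set (MvPolynomial (Fin (n + 1)) ℤ) :=
  {f | f ≠ 0 ∧ f.IsHomogeneous d ∧ ∀ μ, |f.coeff μ| ≤ H}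

/-- `x` lies on the rational line spanned by two linearly independent integer vectors `a`, `b`
with `‖a‖ * ‖b‖ ≤ W` (sup norms) -/
def OnLine {m : ℕ} (W : ℝ) (x : Fin m → ℤ) : Prop :=
  ∃ a b : Fin m → ℤ, LinearIndependent ℤ ![a, b] ∧ ‖a‖ * ‖b‖ ≤ W ∧
    ∃ t u v : ℤ, t ≠ 0 ∧ t • x = u • a + v • b

theorem norm_eq {m : ℕ} (x : Fin m → ℤ) : ‖x‖ = (nm x : ℝ) := by
  apply le_antisymm
  · rw [pi_norm_le_iff_of_nonneg (Nat.cast_nonneg _)]
    intro i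
    rw [Int.norm_eq_abs]
    exact_mod_cast abs_le_nm x i
  · by_cases hx : x = 0
    · rw [hx, nm_eq_zero.2 rfl, Nat.cast_zero]
      exact norm_nonneg _
    · obtain ⟨k, hk⟩ := exists_nm hx
      have h1 : ((nm x : ℕ) : ℝ) = ‖x k‖ := by
        rw [Int.norm_eq_abs]
        exact_mod_cast hk.symm
      rw [h1]
      exact norm_le_pi_norm x k

theorem ind_iff {m : ℕ} {a b : Fin m → ℤ} (h : LinearIndependent ℤ ![a, b]) : Ind a b :=
  fun u v huv => LinearIndependent.pair_iff.1 h u v huv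

theorem EE_le (n d H : ℕ) (hH : 1 ≤ H) : EE n d H ≤ 2 * ((Forms n d H).ncard : ℝ) := by
  have h1 : Forms n d H = (FF n d H : Set _) \ {0} := by
    ext f
    rw [Set.mem_sdiff, Finset.mem_coe, mem_FF, Set.mem_singleton_iff]
    constructor
    · rintro ⟨h1, h2⟩
      exact ⟨h2, h1⟩
    · rintro ⟨h1, h2⟩
      exact ⟨h2, h1⟩
  have h0 : (0 : MvPolynomial (Fin (n + 1)) ℤ) ∈ (FF n d H : Set _) := by
    rw [Finset.mem_coe, mem_FF]
    refine ⟨isHomogeneous_zero _ _ _, fun μ => ?_⟩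
    simp
  have h2 : (Forms n d H).ncard = (2 * H + 1) ^ NN n d - 1 := by
    rw [h1, Set.ncard_sdiff_singleton_of_mem h0, Set.ncard_coe_finset, card_FF]
  have h3 : 1 ≤ NN n d := by
    unfold NN
    rw [Nat.one_le_iff_ne_zero, Finset.card_ne_zero]
    refine ⟨Finsupp.single 0 d, ?_⟩
    rw [mem_Mon]
    simp
  have h4 : 2 ≤ (2 * H + 1) ^ NN n d := by
    calc 2 ≤ 2 * H + 1 := by omega
      _ = (2 * H + 1) ^ 1 := (pow_one _).symm
      _ ≤ (2 * H + 1) ^ NN n d := Nat.pow_le_pow_right (by omega) h3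
  have h5 : (2 * H + 1) ^ NN n d ≤ 2 * (Forms n d H).ncard := by
    rw [h2]
    omega
  unfold EE
  exact_mod_cast h5

/-- Let `n ≥ 2`, `d ≥ n + 2`, `A < (2 d + 1) / 3`, `A < (2 d + 1 - n) / 2` and `θ < 1`. Among the
nonzero forms of degree `d` in `n + 1` variables of height at most `H`, those which have a
nontrivial zero of height at most `H ^ A`, or a nontrivial zero of any height on a rational line
through two points with product of heights at most `H ^ θ`, have proportion `O(H ^ (-δ))` for some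
`δ > 0`. -/
theorem result (n d : ℕ) (hn : 2 ≤ n) (hd : n + 1 < d) (A θ : ℝ)
    (h₁ : 3 * A < 2 * d + 1) (h₂ : 2 * A < 2 * d + 1 - n) (hθ : θ < 1) :
    ∃ C δ : ℝ, 0 < δ ∧ ∀ H : ℕ, 1 ≤ H →
      ({f ∈ Forms n d H | ∃ x : Fin (n + 1) → ℤ, x ≠ 0 ∧ eval x f = 0 ∧
        (‖x‖ ≤ (H : ℝ) ^ A ∨ OnLine ((H : ℝ) ^ θ) x)}.ncard : ℝ) ≤
      C * (H : ℝ) ^ (-δ) * ((Forms n d H).ncard : ℝ) := by
  obtain ⟨C, δ, hC, hδ, h⟩ := expo (n := n) (d := d) hn hd h₁ h₂ hθ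
  refine ⟨2 * C, δ, hδ, fun H hH => ?_⟩
  have hHr : (0 : ℝ) < H := by exact_mod_cast hH
  have hsub : {f ∈ Forms n d H | ∃ x : Fin (n + 1) → ℤ, x ≠ 0 ∧ eval x f = 0 ∧
      (‖x‖ ≤ (H : ℝ) ^ A ∨ OnLine ((H : ℝ) ^ θ) x)} ⊆
      {f | f ∈ FF n d H ∧ ∃ x : Fin (n + 1) → ℤ, x ≠ 0 ∧ eval x f = 0 ∧
        ((nm x : ℝ) ≤ (H : ℝ) ^ A ∨ ∃ a b : Fin (n + 1) → ℤ, Ind a b ∧
          (nm a : ℝ) * nm b ≤ (H : ℝ) ^ θ ∧ ∃ t u v : ℤ, t ≠ 0 ∧ t • x = u • a + v • b)} := by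
    rintro f ⟨⟨-, hf⟩, x, hx, hfx, hc⟩
    refine ⟨mem_FF.2 hf, x, hx, hfx, ?_⟩
    rcases hc with h3 | ⟨a, b, hab, h3, h4⟩
    · left
      rwa [norm_eq] at h3
    · right
      rw [norm_eq, norm_eq] at h3
      exact ⟨a, b, ind_iff hab, h3, h4⟩
  have h1 := Set.ncard_le_ncard hsub (fin_FF (n := n) (d := d) (H := H) sub_FF)
  have h2 : 0 ≤ C * (H : ℝ) ^ (-δ) := mul_nonneg hC.le (Real.rpow_nonneg hHr.le _)
  calc _ ≤ _ := Nat.cast_le.2 h1
    _ ≤ C * (H : ℝ) ^ (-δ) * EE n d H := h H hH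
    _ ≤ C * (H : ℝ) ^ (-δ) * (2 * ((Forms n d H).ncard : ℝ)) :=
        mul_le_mul_of_nonneg_left (EE_le n d H hH) h2
    _ = _ := by ring

end Pool.Agent.Results.MP_6e60ff_nt.NoZeroOfSmallHeight
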