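import Pool.Agent.H31.PC.All

/-!
# MP_6e60ff_nt : plane curves, zeros of bounded height and zeros on other curves
-/

namespace Pool.Agent.Results.MP_6e60ff_nt.PlaneCurves

open MvPolynomial Pool.Agent.H31.RZ Pool.Agent.H31.PC

/-- the nonzero forms of degree `d` in three variables with integer coefficients of absolute
value at most `H` -/
def Forms (d H : ℕ) : Set (MvPolynomial (Fin 3) ℤ) :=
  {f | f ≠ 0 ∧ f.IsHomogeneous d ∧ ∀ μ, |f.coeff μ| ≤ H}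

/-- `x` is a zero of a nonzero form of degree `e` with integer coefficients of absolute value at
most `W` -/
def OnCurve (e : ℕ) (W : ℝ) (x : Fin 3 → ℤ) : Prop :=
  ∃ w : MvPolynomial (Fin 3) ℤ, w ≠ 0 ∧ w.IsHomogeneous e ∧
    (∀ μ, |((w.coeff μ : ℤ) : ℝ)| ≤ W) ∧ eval x w = 0

theorem norm_eq {m : ℕ} (x : Fin m → ℤ) : ‖x‖ = (nm x : ℝ) := by
  apply le_antisymm
  · rw [pi_norm_le_iff_of_nonneg (Nat.cast_nonneg _)]
    intro i
    rw [Int.norm_eq_abs]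
    exact_mod_cast abs_le_nm x i
  · by_cases hx : x = 0
    · rw [hx, nm_eq_zero.2 rfl, Nat.cast_zero]
      exact norm_nonneg _
    · obtain ⟨k, hk⟩ := exists_nm hx
      have h1 : ((nm x : ℕ) : ℝ) = ‖x k‖ := by
        rw [Int.norm_eq_abs]
        exact_mod_cast hk.symm
      rw [h1]
      exact norm_le_pi_norm x k

theorem card_le (d H : ℕ) (hH : 1 ≤ H) :
    ((2 * H + 1 : ℕ) : ℝ) ^ NN 2 d ≤ 2 * ((Forms d H).ncard : ℝ) := by
  have h1 : Forms d H = (FF 2 d H : Set _) \ {0} := by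
    ext f
    rw [Set.mem_sdiff, Finset.mem_coe, mem_FF, Set.mem_singleton_iff]
    constructor
    · rintro ⟨h1, h2⟩
      exact ⟨h2, h1⟩
    · rintro ⟨h1, h2⟩
      exact ⟨h2, h1⟩
  have h0 : (0 : MvPolynomial (Fin (2 + 1)) ℤ) ∈ (FF 2 d H : Set _) := by
    rw [Finset.mem_coe, mem_FF]
    refine ⟨isHomogeneous_zero _ _ _, fun μ => ?_⟩
    simp
  have h2 : (Forms d H).ncard = (2 * H + 1) ^ NN 2 d - 1 := by
    rw [h1, Set.ncard_sdiff_singleton_of_mem h0, Set.ncard_coe_finset, card_FF]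
  have h3 : 1 ≤ NN 2 d := by
    unfold NN
    rw [Nat.one_le_iff_ne_zero, Finset.card_ne_zero]
    refine ⟨Finsupp.single 0 d, ?_⟩
    rw [mem_Mon]
    simp
  have h4 : 2 ≤ (2 * H + 1) ^ NN 2 d := by
    calc 2 ≤ 2 * H + 1 := by omega
      _ = (2 * H + 1) ^ 1 := (pow_one _).symm
      _ ≤ (2 * H + 1) ^ NN 2 d := Nat.pow_le_pow_right (by omega) h3
  have h5 : (2 * H + 1) ^ NN 2 d ≤ 2 * (Forms d H).ncard := by
    rw [h2]
    omega
  exact_mod_cast h5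

/-- Let `d ≥ 4`, let `A < d (d + 1) / 4` or `A < d (d - 1) / 3`, and let `θ < 1`. Among the nonzero
ternary forms of degree `d` and height at most `H`, those which have a nontrivial zero of height at
most `H ^ A`, or a nontrivial zero, of any height, on a curve of a degree `e` with `1 ≤ e < d` and of
height at most `H ^ (θ d (d - 1) / ((e + 1) (e + 2)))`, have proportion `O(H ^ (-δ))` for some
`δ > 0`. -/
theorem result (d : ℕ) (hd : 4 ≤ d) (A θ : ℝ)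
    (hA : 4 * A < d * (d + 1) ∨ 3 * A < d * (d - 1)) (hθ : θ < 1) :
    ∃ C δ : ℝ, 0 < δ ∧ ∀ H : ℕ, 1 ≤ H →
      ({f ∈ Forms d H | ∃ x : Fin 3 → ℤ, x ≠ 0 ∧ eval x f = 0 ∧
        (‖x‖ ≤ (H : ℝ) ^ A ∨ ∃ e : ℕ, 1 ≤ e ∧ e < d ∧
          OnCurve e ((H : ℝ) ^ (θ * (d * (d - 1) / ((e + 1) * (e + 2))))) x)}.ncard : ℝ) ≤
      C * (H : ℝ) ^ (-δ) * ((Forms d H).ncard : ℝ) := by
  obtain ⟨C, δ, hC, hδ, h⟩ := all_bound (d := d) (by omega) hA hθ
  refine ⟨2 * C, δ, hδ, fun H hH => ?_⟩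
  have hHr : (0 : ℝ) < H := by exact_mod_cast hH
  have hsub : {f ∈ Forms d H | ∃ x : Fin 3 → ℤ, x ≠ 0 ∧ eval x f = 0 ∧
        (‖x‖ ≤ (H : ℝ) ^ A ∨ ∃ e : ℕ, 1 ≤ e ∧ e < d ∧
          OnCurve e ((H : ℝ) ^ (θ * (d * (d - 1) / ((e + 1) * (e + 2))))) x)} ⊆
      Bp d A θ H := by
    rintro f ⟨⟨hf0, hf⟩, x, hx, hfx, hc⟩
    refine ⟨mem_FF.2 hf, hf0, x, hx, hfx, ?_⟩
    rcases hc with h3 | ⟨e, h3, h4, w, hw0, hwh, hwc, hwx⟩
    · left
      rwa [norm_eq] at h3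
    · right
      exact ⟨e, ⟨h3, h4⟩, w, hw0, hwh, hwc, hwx⟩
  have hfin : (Bp d A θ H).Finite := (Finset.finite_toSet (FF 2 d H)).subset fun f hf => hf.1
  have h1 := Set.ncard_le_ncard hsub hfin
  have h2 : 0 ≤ C * (H : ℝ) ^ (-δ) := mul_nonneg hC.le (Real.rpow_nonneg hHr.le _)
  calc _ ≤ _ := Nat.cast_le.2 h1
    _ ≤ C * (H : ℝ) ^ (-δ) * ((2 * H + 1 : ℕ) : ℝ) ^ NN 2 d := h H hH
    _ ≤ C * (H : ℝ) ^ (-δ) * (2 * ((Forms d H).ncard : ℝ)) :=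
        mul_le_mul_of_nonneg_left (card_le d H hH) h2
    _ = _ := by ring

end Pool.Agent.Results.MP_6e60ff_nt.PlaneCurves
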