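import Pool.Agent.H21.CV.All

/-!
# MP_6e60ff_nt : zeros of any height on a given curve, and on all the curves of small height
-/

namespace Pool.Agent.Results.MP_6e60ff_nt.ZerosOnCurves

open MvPolynomial

/-- the nonzero forms of degree `d` in `n + 1` variables with integer coefficients of absolute
value at most `H` -/
def Forms (n d H : ℕ) : Set (MvPolynomial (Fin (n + 1)) ℤ) :=
  {f | f ≠ 0 ∧ f.IsHomogeneous d ∧ ∀ μ, |f.coeff μ| ≤ H}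

/-- A presentation of a curve in the projective space of dimension `m + 1`: the rows of the
integer matrix `z` are `m + 2` linearly independent linear forms `z 0, ..., z (m + 1)`, and for
`i < m` the ternary integer form `w i` of degree `e i`, `1 ≤ e i ≤ D`, contains the pure power of
its last variable. -/
def IsCurve {m : ℕ} (D : ℕ) (z : Matrix (Fin (m + 2)) (Fin (m + 2)) ℤ) (e : Fin m → ℕ)
    (w : Fin m → MvPolynomial (Fin 3) ℤ) : Prop :=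
  z.det ≠ 0 ∧ ∀ i, 1 ≤ e i ∧ e i ≤ D ∧ (w i).IsHomogeneous (e i) ∧
    (w i).coeff (Finsupp.single 2 (e i)) ≠ 0

/-- `x` is a point of the curve: `w i (z 0 (x), z 1 (x), z (i + 2) (x)) = 0` for `i < m`. -/
def OnCurve {m : ℕ} (z : Matrix (Fin (m + 2)) (Fin (m + 2)) ℤ)
    (w : Fin m → MvPolynomial (Fin 3) ℤ) (x : Fin (m + 2) → ℤ) : Prop :=
  ∀ i : Fin m, eval ![z.mulVec x 0, z.mulVec x 1, z.mulVec x i.succ.succ] (w i) = 0

theorem card_le (n d H : ℕ) (hH : 1 ≤ H) :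
    ((2 * H + 1 : ℕ) : ℝ) ^ Pool.Agent.H31.RZ.NN n d ≤ 2 * ((Forms n d H).ncard : ℝ) := by
  have h1 : Forms n d H = (Pool.Agent.H31.RZ.FF n d H : Set _) \ {0} := by
    ext f
    rw [Set.mem_sdiff, Finset.mem_coe, Pool.Agent.H31.RZ.mem_FF, Set.mem_singleton_iff]
    constructor
    · rintro ⟨h1, h2⟩
      exact ⟨h2, h1⟩
    · rintro ⟨h1, h2⟩
      exact ⟨h2, h1⟩
  have h0 : (0 : MvPolynomial (Fin (n + 1)) ℤ) ∈ (Pool.Agent.H31.RZ.FF n d H : Set _) := by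
    rw [Finset.mem_coe, Pool.Agent.H31.RZ.mem_FF]
    refine ⟨isHomogeneous_zero _ _ _, fun μ => ?_⟩
    simp
  have h2 : (Forms n d H).ncard = (2 * H + 1) ^ Pool.Agent.H31.RZ.NN n d - 1 := by
    rw [h1, Set.ncard_sdiff_singleton_of_mem h0, Set.ncard_coe_finset,
      Pool.Agent.H31.RZ.card_FF]
  have h3 : 1 ≤ Pool.Agent.H31.RZ.NN n d := by
    unfold Pool.Agent.H31.RZ.NN
    rw [Nat.one_le_iff_ne_zero, Finset.card_ne_zero]
    refine ⟨Finsupp.single 0 d, ?_⟩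
    rw [Pool.Agent.H31.RZ.mem_Mon]
    simp
  have h4 : 2 ≤ (2 * H + 1) ^ Pool.Agent.H31.RZ.NN n d := by
    calc 2 ≤ 2 * H + 1 := by omega
      _ = (2 * H + 1) ^ 1 := (pow_one _).symm
      _ ≤ (2 * H + 1) ^ Pool.Agent.H31.RZ.NN n d := Nat.pow_le_pow_right (by omega) h3
  have h5 : (2 * H + 1) ^ Pool.Agent.H31.RZ.NN n d ≤ 2 * (Forms n d H).ncard := by
    rw [h2]
    omega
  exact_mod_cast h5

theorem pow_le (n d H : ℕ) (hH : 1 ≤ H) :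
    ((H : ℝ)) ^ Pool.Agent.H31.RZ.NN n d ≤ 2 * ((Forms n d H).ncard : ℝ) := by
  refine le_trans ?_ (card_le n d H hH)
  refine pow_le_pow_left₀ (Nat.cast_nonneg _) ?_ _
  push_cast
  have : (0 : ℝ) ≤ H := Nat.cast_nonneg _
  linarith

theorem one_le_NN (n d : ℕ) : 1 ≤ Pool.Agent.H31.RZ.NN n d := by
  unfold Pool.Agent.H31.RZ.NN
  rw [Nat.one_le_iff_ne_zero, Finset.card_ne_zero]
  refine ⟨Finsupp.single 0 d, ?_⟩
  rw [Pool.Agent.H31.RZ.mem_Mon]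
  simp

/-- Let `n = m + 1 ≥ 2`, `d ≥ 2`.
(1) For all `D`, `K`, `ε > 0` there is `C` such that for every curve with a presentation of degrees
at most `D` and coefficients at most `H ^ K` (those of the first two linear forms at most `V`), at
most `C V ^ d H ^ (ε - 1)` of the nonzero forms of degree `d` in `n + 1` variables and height at
most `H` have a nontrivial integer zero, of any height, on the curve.
(2) If `η ((n + 1) ^ 2 + d) + θ (n - 1) (D + 1) (D + 2) / 2 < 1` then all but a proportion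
`O(H ^ (-δ))` of these forms have no nontrivial integer zero, of any height, on ANY of the curves
with a presentation of degrees at most `D`, linear forms with coefficients at most `H ^ η` and
ternary forms with coefficients at most `H ^ θ`. -/
theorem result (m d D : ℕ) (hm : 1 ≤ m) (hd : 2 ≤ d) :
    (∀ (K : ℕ) (ε : ℝ), 0 < ε → ∃ C : ℝ, ∀ (H V : ℕ)
      (z : Matrix (Fin (m + 2)) (Fin (m + 2)) ℤ) (e : Fin m → ℕ)
      (w : Fin m → MvPolynomial (Fin 3) ℤ), 1 ≤ H → 1 ≤ V → IsCurve D z e w →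
      (∀ i j, |z i j| ≤ (H : ℤ) ^ K) → (∀ j, |z 0 j| ≤ V ∧ |z 1 j| ≤ V) →
      (∀ i μ, |(w i).coeff μ| ≤ (H : ℤ) ^ K) →
      ({f ∈ Forms (m + 1) d H | ∃ x : Fin (m + 2) → ℤ, x ≠ 0 ∧ OnCurve z w x ∧
        eval x f = 0}.ncard : ℝ) ≤
        C * (V : ℝ) ^ d * (H : ℝ) ^ (ε - 1) * ((Forms (m + 1) d H).ncard : ℝ)) ∧
    (∀ η θ : ℝ, 0 ≤ η → 0 ≤ θ →
      η * (((m : ℝ) + 2) ^ 2 + d) + θ * ((m : ℝ) * ((D : ℝ) + 1) * ((D : ℝ) + 2) / 2) < 1 →
      ∃ C δ : ℝ, 0 < δ ∧ ∀ H : ℕ, 1 ≤ H →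
      ({f ∈ Forms (m + 1) d H | ∃ (x : Fin (m + 2) → ℤ)
        (z : Matrix (Fin (m + 2)) (Fin (m + 2)) ℤ) (e : Fin m → ℕ)
        (w : Fin m → MvPolynomial (Fin 3) ℤ), x ≠ 0 ∧ IsCurve D z e w ∧
        (∀ i j, |((z i j : ℤ) : ℝ)| ≤ (H : ℝ) ^ η) ∧
        (∀ i μ, |(((w i).coeff μ : ℤ) : ℝ)| ≤ (H : ℝ) ^ θ) ∧ OnCurve z w x ∧
        eval x f = 0}.ncard : ℝ) ≤
        C * (H : ℝ) ^ (-δ) * ((Forms (m + 1) d H).ncard : ℝ)) := by
  refine ⟨fun K ε hε => ?_, fun η θ hη hθ hs => ?_⟩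
  · obtain ⟨C, hC, hmain⟩ := Pool.Agent.H21.CV.tMAIN m d D K ε hd hε
    refine ⟨2 * C, fun H V z e w hH hV hcur hz hzV hw => ?_⟩
    have hHR : (1 : ℝ) ≤ H := by exact_mod_cast hH
    have hH0 : (0 : ℝ) < H := by linarith
    have h1 := hmain H V z e w hH hV hcur hz hzV hw
    have hsub : {f ∈ Forms (m + 1) d H | ∃ x : Fin (m + 2) → ℤ, x ≠ 0 ∧ OnCurve z w x ∧
        eval x f = 0} ⊆ {f | f ∈ Pool.Agent.H31.RZ.FF (m + 1) d H ∧ ∃ x : Fin (m + 2) → ℤ,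
          x ≠ 0 ∧ Pool.Agent.H21.CV.OnC z w x ∧ eval x f = 0} := by
      rintro f ⟨hf, x, hx⟩
      exact ⟨Pool.Agent.H31.RZ.mem_FF.2 hf.2, x, hx⟩
    have hfin : {f | f ∈ Pool.Agent.H31.RZ.FF (m + 1) d H ∧ ∃ x : Fin (m + 2) → ℤ,
          x ≠ 0 ∧ Pool.Agent.H21.CV.OnC z w x ∧ eval x f = 0}.Finite :=
      (Pool.Agent.H31.RZ.FF (m + 1) d H).finite_toSet.subset fun f hf => hf.1
    have h2 : (({f ∈ Forms (m + 1) d H | ∃ x : Fin (m + 2) → ℤ, x ≠ 0 ∧ OnCurve z w x ∧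
        eval x f = 0}.ncard : ℕ) : ℝ) ≤ C * (V : ℝ) ^ d * (H : ℝ) ^ ε *
          (H : ℝ) ^ (Pool.Agent.H31.RZ.NN (m + 1) d - 1) :=
      le_trans (by exact_mod_cast Set.ncard_le_ncard hsub hfin) h1
    refine h2.trans ?_
    have h3 := pow_le (m + 1) d H hH
    have h4 : (H : ℝ) ^ ε * (H : ℝ) ^ (Pool.Agent.H31.RZ.NN (m + 1) d - 1) =
        (H : ℝ) ^ (ε - 1) * (H : ℝ) ^ Pool.Agent.H31.RZ.NN (m + 1) d := by
      have h5 := one_le_NN (m + 1) d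
      obtain ⟨k, hk⟩ : ∃ k, Pool.Agent.H31.RZ.NN (m + 1) d = k + 1 := ⟨_, (Nat.sub_add_cancel h5).symm⟩
      rw [hk, Nat.add_sub_cancel, pow_succ, Real.rpow_sub hH0, Real.rpow_one]
      field_simp
    calc C * (V : ℝ) ^ d * (H : ℝ) ^ ε * (H : ℝ) ^ (Pool.Agent.H31.RZ.NN (m + 1) d - 1)
        = C * (V : ℝ) ^ d * (H : ℝ) ^ (ε - 1) * (H : ℝ) ^ Pool.Agent.H31.RZ.NN (m + 1) d := by
          rw [mul_assoc, h4]
          ring
      _ ≤ C * (V : ℝ) ^ d * (H : ℝ) ^ (ε - 1) * (2 * ((Forms (m + 1) d H).ncard : ℝ)) :=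
          mul_le_mul_of_nonneg_left h3 (by positivity)
      _ = _ := by ring
  · obtain ⟨C, δ, hδ, hmain⟩ := Pool.Agent.H21.CV.tFAMC m d D η θ hd hη hθ hs
    refine ⟨2 * |C|, δ, hδ, fun H hH => ?_⟩
    have hHR : (1 : ℝ) ≤ H := by exact_mod_cast hH
    have hH0 : (0 : ℝ) < H := by linarith
    have h1 := hmain H hH
    have h3 := pow_le (m + 1) d H hH
    refine le_trans ?_ (h1.trans ?_)
    · have hfin : {f | f ∈ Pool.Agent.H31.RZ.FF (m + 1) d H ∧ ∃ (x : Fin (m + 2) → ℤ)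
          (z : Matrix (Fin (m + 2)) (Fin (m + 2)) ℤ) (e : Fin m → ℕ)
          (w : Fin m → MvPolynomial (Fin 3) ℤ), x ≠ 0 ∧ Pool.Agent.H21.CV.IsD D z e w ∧
          (∀ i j, |((z i j : ℤ) : ℝ)| ≤ (H : ℝ) ^ η) ∧
          (∀ i μ, |(((w i).coeff μ : ℤ) : ℝ)| ≤ (H : ℝ) ^ θ) ∧
          Pool.Agent.H21.CV.OnC z w x ∧ eval x f = 0}.Finite :=
        (Pool.Agent.H31.RZ.FF (m + 1) d H).finite_toSet.subset fun f hf => hf.1
      refine Nat.cast_le.2 (Set.ncard_le_ncard ?_ hfin)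
      rintro f ⟨hf, x, hx⟩
      exact ⟨Pool.Agent.H31.RZ.mem_FF.2 hf.2, x, hx⟩
    · calc C * (H : ℝ) ^ (-δ) * (H : ℝ) ^ Pool.Agent.H31.RZ.NN (m + 1) d
          ≤ |C| * (H : ℝ) ^ (-δ) * (H : ℝ) ^ Pool.Agent.H31.RZ.NN (m + 1) d := by
            gcongr
            exact le_abs_self C
        _ ≤ |C| * (H : ℝ) ^ (-δ) * (2 * ((Forms (m + 1) d H).ncard : ℝ)) :=
            mul_le_mul_of_nonneg_left h3 (by positivity)
        _ = _ := by ring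

end Pool.Agent.Results.MP_6e60ff_nt.ZerosOnCurves
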